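import Mathlib

set_option autoImplicit false

/-!
# Module MJF, part a: pure analysis
-/

namespace Pool.Agent.Helper79.BG

open Finset Filter

/-- `K (1 + log M)^199 M^0.9996 ≤ δ M` for large `M`. -/
theorem ev_small (K δ : ℝ) (hK : 0 ≤ K) (hδ : 0 < δ) :
    ∀ᶠ M : ℕ in atTop, K * (1 + Real.log M) ^ 199 * (M : ℝ) ^ (9996 / 10000 : ℝ) ≤ δ * M := by
  have h1 : (fun x : ℝ => Real.log x ^ (199 : ℝ)) =o[atTop] fun x => x ^ (4 / 10000 : ℝ) :=
    isLittleO_log_rpow_rpow_atTop _ (by norm_num)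
  set η : ℝ := δ / ((K + 1) * 2 ^ 199) with hη
  have hη0 : 0 < η := by positivity
  have h2 := h1.def hη0
  have h3 : ∀ᶠ x : ℝ in atTop, K * (1 + Real.log x) ^ 199 * x ^ (9996 / 10000 : ℝ) ≤ δ * x := by
    filter_upwards [h2, eventually_ge_atTop (Real.exp 1)] with x hx hx1
    have hx0 : 0 < x := (Real.exp_pos 1).trans_le hx1
    have hl : 1 ≤ Real.log x := by
      rw [Real.le_log_iff_exp_le hx0]; exact hx1
    have hl0 : 0 ≤ Real.log x := by linarith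
    have e1 : Real.log x ^ (199 : ℝ) = Real.log x ^ 199 := by
      rw [← Real.rpow_natCast]; norm_num
    rw [e1, Real.norm_of_nonneg (pow_nonneg hl0 _),
      Real.norm_of_nonneg (Real.rpow_nonneg hx0.le _)] at hx
    have e2 : (1 + Real.log x) ^ 199 ≤ 2 ^ 199 * Real.log x ^ 199 := by
      rw [← mul_pow]
      exact pow_le_pow_left₀ (by linarith) (by linarith) _
    have e3 : x ^ (4 / 10000 : ℝ) * x ^ (9996 / 10000 : ℝ) = x := by
      rw [← Real.rpow_add hx0]; norm_num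
    have hp : 0 ≤ x ^ (9996 / 10000 : ℝ) := Real.rpow_nonneg hx0.le _
    calc K * (1 + Real.log x) ^ 199 * x ^ (9996 / 10000 : ℝ)
        ≤ K * (2 ^ 199 * (η * x ^ (4 / 10000 : ℝ))) * x ^ (9996 / 10000 : ℝ) := by
          gcongr
          exact e2.trans (by gcongr)
      _ = K * 2 ^ 199 * η * (x ^ (4 / 10000 : ℝ) * x ^ (9996 / 10000 : ℝ)) := by ring
      _ = (K * 2 ^ 199 * η) * x := by rw [e3]
      _ ≤ δ * x := by
          apply mul_le_mul_of_nonneg_right _ hx0.le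
          rw [hη, mul_div_assoc', div_le_iff₀ (by positivity)]
          nlinarith [hδ.le, (by positivity : (0 : ℝ) ≤ 2 ^ 199)]
  exact tendsto_natCast_atTop_atTop.eventually h3

/-- passing to the weights. -/
theorem step0 (N S : Finset ℕ) (f e g : ℕ → ℝ) (Lg c T k : ℝ) (hS : S ⊆ N)
    (h0 : ∀ n ∈ N, n ∉ S → f n = 0) (hf : ∀ n ∈ S, f n ≤ Lg * (e n + c))
    (hg : ∀ n, 0 ≤ g n ∧ g n ≤ T) (hLg : 0 ≤ Lg) (hc : 0 ≤ c) (hk : (S.card : ℝ) ≤ k) (hT : 0 ≤ T) :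
    ∑ n ∈ N, f n * g n ≤ Lg * (∑ n ∈ S, e n * g n + c * k * T) := by
  have h1 : ∑ n ∈ N, f n * g n = ∑ n ∈ S, f n * g n := by
    symm
    apply Finset.sum_subset hS
    intro n hn hnS
    rw [h0 n hn hnS, zero_mul]
  rw [h1]
  have h2 : ∑ n ∈ S, f n * g n ≤ ∑ n ∈ S, Lg * (e n * g n + c * T) := by
    refine Finset.sum_le_sum fun n hn => ?_
    calc f n * g n ≤ Lg * (e n + c) * g n := mul_le_mul_of_nonneg_right (hf n hn) (hg n).1
      _ = Lg * (e n * g n + c * g n) := by ring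
      _ ≤ Lg * (e n * g n + c * T) := by
          apply mul_le_mul_of_nonneg_left _ hLg
          have := mul_le_mul_of_nonneg_left (hg n).2 hc
          linarith
  refine h2.trans ?_
  rw [← Finset.mul_sum, Finset.sum_add_distrib, Finset.sum_const, nsmul_eq_mul]
  apply mul_le_mul_of_nonneg_left _ hLg
  have h3 : (S.card : ℝ) * (c * T) ≤ k * (c * T) := mul_le_mul_of_nonneg_right hk (by positivity)
  nlinarith

/-- the main term. -/
theorem main_alg (Lg X Wr ph σ S' QE LR LM w : ℝ) (hX : 0 ≤ X) (hW : 0 < Wr) (hph : 0 < ph)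
    (hQE : 0 ≤ QE) (hLM : 0 < LM) (hLR : LR = 2499 / 10000 * LM) (hw : 4000 ≤ w)
    (hσ : σ ≤ 1 / w) (hLg : Lg ≤ 10026 / 10000 * LM)
    (hS' : (1 - 3 / w) * (945 / 1000) * (ph / Wr * LR) ≤ S') :
    Lg * (X / Wr * (((1 - σ) * S')⁻¹ * QE)) ≤ X / ph * (17 / 4 * QE) := by
  have hw0 : 0 < w := by linarith
  have h1w : 1 / w ≤ 1 / 4000 := one_div_le_one_div_of_le (by norm_num) hw
  have h3w : 3 / w ≤ 3 / 4000 := by
    have : 3 / w = 3 * (1 / w) := by ring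
    rw [this]; linarith
  have hLR0 : 0 < LR := by rw [hLR]; positivity
  have hσ1 : 3999 / 4000 ≤ 1 - σ := by linarith
  have hbase : 0 < ph / Wr * LR := by positivity
  have hS1 : 3997 / 4000 * (945 / 1000) * (ph / Wr * LR) ≤ S' := by
    refine le_trans ?_ hS'
    apply mul_le_mul_of_nonneg_right _ hbase.le
    nlinarith
  have hS0 : 0 < S' := lt_of_lt_of_le (by positivity) hS1
  have hden : 0 < (1 - σ) * S' := mul_pos (by linarith) hS0
  -- the key inequality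
  have hkey : Lg * ph ≤ 17 / 4 * (Wr * ((1 - σ) * S')) := by
    have h4 : 3999 / 4000 * (3997 / 4000 * (945 / 1000) * (ph / Wr * LR)) ≤ (1 - σ) * S' :=
      mul_le_mul hσ1 hS1 (by positivity) (by linarith)
    have h5 : Wr * (3999 / 4000 * (3997 / 4000 * (945 / 1000) * (ph / Wr * LR))) ≤
        Wr * ((1 - σ) * S') := mul_le_mul_of_nonneg_left h4 hW.le
    have h6 : Wr * (3999 / 4000 * (3997 / 4000 * (945 / 1000) * (ph / Wr * LR))) =
        3999 / 4000 * (3997 / 4000) * (945 / 1000) * (2499 / 10000) * (LM * ph) := by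
      rw [hLR]; field_simp
    rw [h6] at h5
    have h7 : Lg * ph ≤ 10026 / 10000 * (LM * ph) := by nlinarith
    have h8 : 0 < LM * ph := mul_pos hLM hph
    nlinarith
  have e1 : Lg * (X / Wr * (((1 - σ) * S')⁻¹ * QE)) =
      (Lg / (Wr * ((1 - σ) * S'))) * (X * QE) := by
    field_simp
  have e2 : X / ph * (17 / 4 * QE) = (17 / 4 / ph) * (X * QE) := by
    field_simp
  rw [e1, e2]
  apply mul_le_mul_of_nonneg_right _ (by positivity)
  rw [div_le_div_iff₀ (by positivity) hph]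
  linarith

/-- the error terms. -/
theorem err_alg (Lg C M k SSv Z Y lz ly L1 T1 T2 : ℝ) (hC : 0 ≤ C) (hM : 1 ≤ M) (hk : 0 ≤ k)
    (hSS0 : 0 ≤ SSv) (hSS : SSv ≤ L1) (hZ0 : 0 ≤ Z) (hZY : Z ≤ Y) (hlz0 : 0 ≤ lz) (hlz : 1 + lz ≤ L1)
    (hly0 : 0 ≤ ly) (hly : 1 + ly ≤ L1) (hLg : Lg ≤ 2 * L1)
    (hT1 : T1 = k * SSv * Z * (1 + lz) ^ 98) (hT2 : T2 = k * SSv * Y * (1 + ly) ^ 98) :
    Lg * (C / M * (4 * M + 1) * T1 ^ 2 + C * T2 ^ 2) ≤ 12 * C * k ^ 2 * L1 ^ 199 * Y ^ 2 := by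
  have hL1 : 0 ≤ L1 := hSS0.trans hSS
  have hY0 : 0 ≤ Y := hZ0.trans hZY
  have b1 : T1 ≤ k * Y * L1 ^ 99 := by
    rw [hT1]
    calc k * SSv * Z * (1 + lz) ^ 98 ≤ k * L1 * Y * L1 ^ 98 := by gcongr
      _ = k * Y * L1 ^ 99 := by ring
  have b2 : T2 ≤ k * Y * L1 ^ 99 := by
    rw [hT2]
    calc k * SSv * Y * (1 + ly) ^ 98 ≤ k * L1 * Y * L1 ^ 98 := by gcongr
      _ = k * Y * L1 ^ 99 := by ring
  have b10 : 0 ≤ T1 := by rw [hT1]; positivity
  have b20 : 0 ≤ T2 := by rw [hT2]; positivity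
  have c1 : C / M * (4 * M + 1) ≤ 5 * C := by
    rw [div_mul_eq_mul_div, div_le_iff₀ (by linarith)]
    nlinarith
  have s1 : T1 ^ 2 ≤ (k * Y * L1 ^ 99) ^ 2 := pow_le_pow_left₀ b10 b1 2
  have s2 : T2 ^ 2 ≤ (k * Y * L1 ^ 99) ^ 2 := pow_le_pow_left₀ b20 b2 2
  have s3 : C / M * (4 * M + 1) * T1 ^ 2 + C * T2 ^ 2 ≤ 6 * C * (k * Y * L1 ^ 99) ^ 2 := by
    have t1 : C / M * (4 * M + 1) * T1 ^ 2 ≤ 5 * C * (k * Y * L1 ^ 99) ^ 2 := by
      gcongr
    have t2 : C * T2 ^ 2 ≤ C * (k * Y * L1 ^ 99) ^ 2 := by gcongr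
    linarith
  calc Lg * (C / M * (4 * M + 1) * T1 ^ 2 + C * T2 ^ 2)
      ≤ (2 * L1) * (6 * C * (k * Y * L1 ^ 99) ^ 2) := by
        apply mul_le_mul hLg s3 _ (by positivity)
        have : 0 ≤ C / M * (4 * M + 1) := by positivity
        positivity
    _ = 12 * C * k ^ 2 * L1 ^ 199 * Y ^ 2 := by ring

theorem kk_alg (k ε : ℝ) (hε : 0 < ε) : k ^ 2 * (ε / (20 * (k ^ 2 + 1))) ≤ ε / 20 := by
  rw [mul_div_assoc', div_le_div_iff₀ (by positivity) (by norm_num)]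
  have : 0 ≤ k ^ 2 := sq_nonneg _
  nlinarith

/-- the assembly. -/
theorem fin_alg (LHS Lg X Wr ph inv Seta Q E ORv e1 e2 k S50 a1 a2 ε err : ℝ) (hX : 0 ≤ X)
    (hW : 0 < Wr) (hph : 0 < ph) (hinv : 0 ≤ inv) (hLg : 0 ≤ Lg)
    (h1 : LHS ≤ Lg * (Seta + a1)) (h2 : Seta ≤ X / Wr * (inv * (Q + E)) + a2)
    (hQ : Q ≤ S50 * (ORv + e1)) (hQ0 : 0 ≤ Q) (hE : E ≤ k ^ 2 * e2 * S50) (hS50 : 1 ≤ S50)
    (hm : ∀ QE, 0 ≤ QE → Lg * (X / Wr * (inv * QE)) ≤ X / ph * (17 / 4 * QE))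
    (he : Lg * (a1 + a2) ≤ err) (herr : err ≤ ε / 2 * (X / ph))
    (hs : 17 / 4 * (e1 + k ^ 2 * e2) ≤ ε / 2) (hke : 0 ≤ k ^ 2 * e2) (hε : 0 < ε) :
    LHS ≤ X / ph * S50 * (17 / 4 * ORv + ε) := by
  have hS0 : 0 ≤ S50 := by linarith
  set QE : ℝ := S50 * (ORv + e1) + k ^ 2 * e2 * S50 with hQE
  have hQE0 : 0 ≤ QE := by
    have : 0 ≤ k ^ 2 * e2 * S50 := mul_nonneg hke hS0
    linarith
  have hle : Q + E ≤ QE := by linarith
  have hXph : 0 ≤ X / ph := div_nonneg hX hph.le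
  have s1 : Seta ≤ X / Wr * (inv * QE) + a2 := by
    refine h2.trans ?_
    have : X / Wr * (inv * (Q + E)) ≤ X / Wr * (inv * QE) :=
      mul_le_mul_of_nonneg_left (mul_le_mul_of_nonneg_left hle hinv) (div_nonneg hX hW.le)
    linarith
  have s2 : LHS ≤ Lg * (X / Wr * (inv * QE)) + Lg * (a1 + a2) := by
    refine h1.trans ?_
    have : Lg * (Seta + a1) ≤ Lg * (X / Wr * (inv * QE) + a2 + a1) :=
      mul_le_mul_of_nonneg_left (by linarith) hLg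
    linarith [this, mul_add Lg (X / Wr * (inv * QE)) (a1 + a2)]
  have s3 := hm QE hQE0
  have s4 : X / ph * (17 / 4 * QE) = X / ph * S50 * (17 / 4 * ORv + 17 / 4 * (e1 + k ^ 2 * e2)) := by
    rw [hQE]; ring
  have hXS : 0 ≤ X / ph * S50 := mul_nonneg hXph hS0
  have s5 : X / ph * S50 * (17 / 4 * ORv + 17 / 4 * (e1 + k ^ 2 * e2)) ≤
      X / ph * S50 * (17 / 4 * ORv + ε / 2) := mul_le_mul_of_nonneg_left (by linarith) hXS
  have s6 : ε / 2 * (X / ph) ≤ X / ph * S50 * (ε / 2) := by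
    have h7 : X / ph * 1 ≤ X / ph * S50 := mul_le_mul_of_nonneg_left hS50 hXph
    have h8 : ε / 2 * (X / ph * 1) ≤ ε / 2 * (X / ph * S50) :=
      mul_le_mul_of_nonneg_left h7 (by linarith)
    linarith
  have s7 : X / ph * S50 * (17 / 4 * ORv + ε) =
      X / ph * S50 * (17 / 4 * ORv + ε / 2) + X / ph * S50 * (ε / 2) := by ring
  rw [s7]
  linarith

end Pool.Agent.Helper79.BG
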