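import Pool.Agent.Helper27.BG.St3
import Pool.Agent.Helper79.BG.MJFa

set_option autoImplicit false

/-!
# Module MJF: the majorant over the primes
-/

namespace Pool.Agent.Helper27.BG

open Finset MeasureTheory Filter
open Pool.Agent.Helper90.MT (lam mat wt szA prt szU VV DD piDD Ok EqD Avd SW)
open Pool.Agent.Helper60.GP (IsB JJ)
open Pool.Agent.Helper79.BG (ev_small step0 main_alg err_alg fin_alg)

/-- the linear form is bounded by the sum of the coefficients -/
theorem LF_abs_MJF {α ι : Type} [Fintype α] [DecidableEq α] [Fintype ι] [DecidableEq ι]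
    (pr : α → ℕ) (sh : ι → ℕ) (Y : (α → Option ι) → ℝ) (n : ℕ) :
    |LF pr sh Y n| ≤ ∑ b, |lam pr Y b| := by
  classical
  unfold LF
  refine (Finset.abs_sum_le_sum_abs _ _).trans (Finset.sum_le_sum fun b _ => ?_)
  split_ifs
  · exact le_refl _
  · rw [abs_zero]; exact abs_nonneg _

theorem logRR_MJF (M : ℕ) (hM : 1 ≤ M) : Real.log (RR M) = 2499 / 10000 * Real.log M := by
  unfold RR
  rw [Real.log_rpow (by exact_mod_cast hM)]

theorem SS_tendsto_MJF (W : ℕ) (hW : 0 < W) : Tendsto (fun M : ℕ => SS W M) atTop atTop := by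
  have h1 : Tendsto (fun M : ℕ => Real.log (M : ℝ)) atTop atTop :=
    Real.tendsto_log_atTop.comp tendsto_natCast_atTop_atTop
  have hph : (0 : ℝ) < (W.totient : ℝ) / W := by
    have := Nat.totient_pos.mpr hW
    positivity
  have h2 : Tendsto (fun M : ℕ => (W.totient : ℝ) / W * (2499 / 10000) * Real.log (M : ℝ))
      atTop atTop := h1.const_mul_atTop (by positivity)
  refine h2.congr' ?_
  filter_upwards [eventually_ge_atTop 1] with M hM
  unfold SS
  rw [logRR_MJF M hM]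
  ring

theorem hMjf : StMjf := by
  intro hMaj hLm hVbd hErr hMer hSWs hDDw hOkw hEta hVsq ω hω hJ ι _ _ sh m hcard φ b hφb hφ0 ε hε
  obtain ⟨B0, hB0, hOk⟩ := hOkw
  obtain ⟨hFN, hFN0, hOk3⟩ := hOk ι hcard
  have hMer' := hMer
  obtain ⟨Cm, hCm, hMerW⟩ := hMer'
  have hb : 0 ≤ b := (abs_nonneg _).trans (hφb 0)
  set k1 : ℝ := b * B0 * Cm with hk1
  have hk10 : 0 ≤ k1 := by positivity
  set e1 : ℝ := ε / 20 with he1
  have he10 : 0 < e1 := by positivity
  set e2 : ℝ := ε / (20 * (k1 ^ 2 + 1)) with he2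
  have he20 : 0 < e2 := by positivity
  obtain ⟨w1, hw1⟩ := hVsq ι m hcard (fun t => φ t ^ 2) (b ^ 2) (fun t => by
    rw [abs_pow]; exact pow_le_pow_left₀ (abs_nonneg _) (hφb t) 2) e1 he10
  obtain ⟨w2, hw2⟩ := hErr hMer 48 49 e2 he20
  refine ⟨max (max w1 w2) 4000, fun w hw W v hG => ?_⟩
  have hww1 : w1 ≤ w := (le_max_left w1 w2).trans ((le_max_left _ _).trans hw)
  have hww2 : w2 ≤ w := (le_max_right w1 w2).trans ((le_max_left _ _).trans hw)
  have hw4 : 4000 ≤ w := (le_max_right _ _).trans hw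
  have hw4r : (4000 : ℝ) ≤ w := by exact_mod_cast hw4
  have hW0 : 0 < W := hG.dv.1
  have hWr : (0 : ℝ) < W := by exact_mod_cast hW0
  have hph0 : 0 < W.totient := Nat.totient_pos.mpr hW0
  have hphr : (0 : ℝ) < W.totient := by exact_mod_cast hph0
  obtain ⟨Mv, hMv⟩ := hw1 w hww1 W hG.dv
  obtain ⟨Me, hMe⟩ := hw2 w hww2 W hG.dv
  obtain ⟨Mo, hMo⟩ := hOk3 sh w W v (by omega) hG
  obtain ⟨Mm, hMm⟩ := hMerW W hW0
  obtain ⟨C, hC, Mt, hMt⟩ := hEta ω hω (sh m)
  obtain ⟨c, C', hc, hcle, hcw, hSW⟩ := hSWs W hW0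
  have hcw' := hcw w (by omega) hG.dv
  -- eventual conditions
  have ev1 : ∀ᶠ M : ℕ in atTop, C' ≤ 945 / 1000 * (1 / (w : ℝ)) * SS W M := by
    have h1 := (SS_tendsto_MJF W hW0).const_mul_atTop
      (show (0 : ℝ) < 945 / 1000 * (1 / (w : ℝ)) by positivity)
    exact h1.eventually_ge_atTop C'
  have ev2 : ∀ᶠ M : ℕ in atTop, Real.log 5 ≤ 26 / 10000 * Real.log (M : ℝ) := by
    have h1 : Tendsto (fun M : ℕ => 26 / 10000 * Real.log (M : ℝ)) atTop atTop :=
      (Real.tendsto_log_atTop.comp tendsto_natCast_atTop_atTop).const_mul_atTop (by norm_num)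
    exact h1.eventually_ge_atTop _
  have ev4 : ∀ᶠ M : ℕ in atTop, 1 ≤ SS W M := (SS_tendsto_MJF W hW0).eventually_ge_atTop 1
  have ev3 := ev_small (12 * C * k1 ^ 2) (ε / 2 * (JJ ω / W.totient)) (by positivity)
    (by positivity)
  obtain ⟨Ms, hMs⟩ := eventually_atTop.mp (ev1.and (ev2.and (ev3.and ev4)))
  refine ⟨Mv + Me + Mo + Mm + Mt + Ms + 2, fun M hM => ?_⟩
  have hvsq := hMv M (by omega)
  have herr := (hMe M (by omega)).1
  obtain ⟨hok, hsig, hRR1, hszlt, hsz⟩ := hMo M (by omega)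
  have hmer := hMm M (by omega)
  obtain ⟨het0, het1, hfM0, heq, hfMp, hfMs⟩ := hMt M (by omega)
  obtain ⟨hs1, hs2, hs3, hs4⟩ := hMs M (by omega)
  have hM1 : 1 ≤ M := by omega
  have hMr1 : (1 : ℝ) ≤ M := by exact_mod_cast hM1
  have hMr2 : (2 : ℝ) ≤ M := by
    have : 2 ≤ M := by omega
    exact_mod_cast this
  have hMr0 : (0 : ℝ) < M := by linarith only [hMr1]
  have hLM0 : 0 < Real.log M := Real.log_pos (by linarith only [hMr2])
  have hLR : Real.log (RR M) = 2499 / 10000 * Real.log M := logRR_MJF M hM1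
  have hRR0 : 0 < RR M := by linarith only [hRR1]
  have hSS0 : 0 < SS W M := by linarith only [hs4]
  -- the sets and functions
  set U : (Pw W M → Option ι) → ℝ := UU W M m φ with hU
  set Z : ℝ := RR M ^ (((1055 : ℕ) : ℝ) / 1000) with hZ
  set R' : ℝ := RR M ^ ((945 : ℝ) / 1000) with hR'
  have hZ1 : 1 ≤ Z := Real.one_le_rpow hRR1.le (by positivity)
  have hR'1 : 1 ≤ R' := Real.one_le_rpow hRR1.le (by positivity)
  have hZR : Z * R' = (M : ℝ) ^ (2499 / 5000 : ℝ) := by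
    rw [hZ, hR', ← Real.rpow_add hRR0]
    unfold RR
    rw [← Real.rpow_mul hMr0.le]
    norm_num
  -- bounds for U
  have hYsz : ∀ a : Pw W M → Option ι, YY W M a ≠ 0 → (szA (pw W M) a : ℝ) ≤ Z := by
    intro a ha
    unfold YY at ha
    exact hsz a 1055 (hFN0 _ _ ha).2
  have hYb : ∀ a : Pw W M → Option ι, |YY W M a| ≤ B0 := fun a => hFN _ _
  obtain ⟨hV1, hV2⟩ := hVbd (Pw W M) ι (pw W M) m (YY W M) B0 Z hok.prime hB0.le hYb hYsz
  set B : ℝ := k1 * SS W M with hB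
  have hB0' : 0 ≤ B := mul_nonneg hk10 hSS0.le
  have hUb : ∀ a, |U a| ≤ B := by
    intro a
    rw [hU]
    unfold UU
    rw [abs_mul]
    calc |φ (totN M (prt (pw W M) a))| * |Vm (pw W M) m (YY W M) a|
        ≤ b * (B0 * (Cm * SS W M)) := by
          apply mul_le_mul (hφb _) _ (abs_nonneg _) hb
          exact (hV1 a).trans (mul_le_mul_of_nonneg_left hmer hB0.le)
      _ = B := by rw [hB, hk1]; ring
  have hUA : ∀ a, U a ≠ 0 → Avd {m} a := by
    intro a ha
    rw [hU] at ha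
    unfold UU at ha
    exact (hV2 a (right_ne_zero_of_mul ha)).1
  have hUsz : ∀ a, U a ≠ 0 → (szA (pw W M) a : ℝ) ≤ Z := by
    intro a ha
    rw [hU] at ha
    unfold UU at ha
    exact (hV2 a (right_ne_zero_of_mul ha)).2
  -- the coefficients
  obtain ⟨_, _, hlam⟩ := hLm (Pw W M) ι (pw W M) U B Z hok.prime hok.inj hZ1 hUb hUsz
  rw [hcard] at hlam
  have hok' : Ok (pw W M) sh (Fintype.card ι) W v := by rw [hcard]; exact hok
  have hsig1 : ∑ i, 1 / (pw W M i : ℝ) ^ 2 < 1 := by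
    refine lt_of_le_of_lt hsig ?_
    rw [div_lt_one (by linarith only [hw4r])]
    linarith only [hw4r]
  have hX0 : 0 ≤ JJ ω * M := mul_nonneg hJ.le hMr0.le
  have hmaj := hMaj (Pw W M) ι (pw W M) sh W v m U (range (4 * M + 1)) (eta ω M) (JJ ω * M) C B Z R'
    hok' hX0 hC.le heq het0 hUb hUA hUsz hZ1 hR'1 hsig1
  rw [hcard] at hmaj
  -- the sum over the divisors
  have hRle : R' ≤ Z * R' := le_mul_of_one_le_left (by linarith only [hR'1]) hZ1
  have hdd := hDDw W M R' hW0 hR'1 (by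
    rw [← hZR]
    exact hRle)
  have hlogR' : Real.log R' = 945 / 1000 * Real.log (RR M) := by
    rw [hR', Real.log_rpow hRR0]
  have hlogZ : Real.log Z = 1055 / 1000 * Real.log (RR M) := by
    rw [hZ, Real.log_rpow hRR0]; norm_num
  have hS'low : (1 - 3 / (w : ℝ)) * (945 / 1000) *
      ((W.totient : ℝ) / W * Real.log (RR M)) ≤ SW W R' := by
    have h1 := (abs_le.mp (hSW R' hR'1)).1
    have h2 : (1 - 2 / (w : ℝ)) * ((W.totient : ℝ) / W) * Real.log R' ≤ c * Real.log R' := by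
      apply mul_le_mul_of_nonneg_right hcw'
      exact Real.log_nonneg hR'1
    have h3 : 945 / 1000 * (1 / (w : ℝ)) * SS W M =
        945 / 1000 * (1 / (w : ℝ)) * ((W.totient : ℝ) / W * Real.log (RR M)) := by
      unfold SS
      exact rfl
    rw [h3] at hs1
    rw [hlogR'] at h1 h2
    have h4 : (1 - 3 / (w : ℝ)) * (945 / 1000) * ((W.totient : ℝ) / W * Real.log (RR M)) =
        (1 - 2 / (w : ℝ)) * ((W.totient : ℝ) / W) * (945 / 1000 * Real.log (RR M)) -
        945 / 1000 * (1 / (w : ℝ)) * ((W.totient : ℝ) / W * Real.log (RR M)) := by ring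
    rw [h4]
    linarith only [h1, h2, hs1]
  -- the weights
  set Lg : ℝ := Real.log (5 * M) with hLgdef
  have hLgeq : Lg = Real.log 5 + Real.log M := by
    rw [hLgdef, Real.log_mul (by norm_num) hMr0.ne']
  have hLg1 : Lg ≤ 10026 / 10000 * Real.log M := by linarith only [hLgeq, hs2]
  have hLg0 : 0 ≤ Lg := by
    rw [hLgeq]
    have : 0 ≤ Real.log 5 := Real.log_nonneg (by norm_num)
    linarith only [this, hLM0]
  have hLg2 : Lg ≤ 2 * (1 + Real.log M) := by linarith only [hLg1, hLM0]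
  set T1 : ℝ := B * Z * (1 + Real.log Z) ^ (2 * 49) with hT1
  set T2 : ℝ := B * (Z * R') * (1 + Real.log (Z * R')) ^ (2 * 49) with hT2
  have hlogZ0 : 0 ≤ Real.log Z := Real.log_nonneg hZ1
  have hZR1 : 1 ≤ Z * R' := one_le_mul_of_one_le_of_one_le hZ1 hR'1
  have hlogY0 : 0 ≤ Real.log (Z * R') := Real.log_nonneg hZR1
  have hlogY : Real.log (Z * R') = 2499 / 5000 * Real.log M := by
    rw [hZR, Real.log_rpow hMr0]
  have hT10 : 0 ≤ T1 := by
    rw [hT1]
    exact mul_nonneg (mul_nonneg hB0' (by linarith only [hZ1])) (pow_nonneg (by linarith only [hlogZ0]) _)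
  classical
  have hstep := step0 ((range (4 * M + 1)).filter (fun n => n ≡ v [MOD W]))
    ((range (4 * M + 1)).filter (fun n => n ≡ v [MOD W] ∧ ∀ i, ¬ pw W M i ∣ n + sh m))
    (fun n => fM ω M (n + sh m)) (eta ω M) (fun n => LF (pw W M) sh U n ^ 2) Lg (C / M) (T1 ^ 2)
    (4 * M + 1) (by
      intro n hn
      rw [Finset.mem_filter] at hn ⊢
      exact ⟨hn.1, hn.2.1⟩) (by
      intro n hn hnS
      by_contra hne
      apply hnS
      rw [Finset.mem_filter] at hn ⊢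
      refine ⟨hn.1, hn.2, fun i hi => ?_⟩
      obtain ⟨hpr, hIoc⟩ := hfMp _ hne
      have h1 := (Nat.prime_dvd_prime_iff_eq (hok.prime i) hpr).mp hi
      have h2 : (pw W M i) ≤ M := by
        have := i.2
        unfold Pw at this
        rw [Finset.mem_filter, Finset.mem_range] at this
        exact Nat.lt_succ_iff.mp this.1
      rw [Finset.mem_Ioc] at hIoc
      omega) (by
      intro n _
      exact hfMs n (sh m) le_rfl) (by
      intro n
      refine ⟨sq_nonneg _, ?_⟩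
      have h1 := (LF_abs_MJF (pw W M) sh U n).trans hlam
      rw [← sq_abs]
      exact pow_le_pow_left₀ (abs_nonneg _) h1 2) hLg0 (div_nonneg hC.le hMr0.le) (by
      have h1 := Finset.card_filter_le (range (4 * M + 1))
        (fun n => n ≡ v [MOD W] ∧ ∀ i, ¬ pw W M i ∣ n + sh m)
      rw [Finset.card_range] at h1
      have h2 : (((range (4 * M + 1)).filter
        (fun n => n ≡ v [MOD W] ∧ ∀ i, ¬ pw W M i ∣ n + sh m)).card : ℝ) ≤ ((4 * M + 1 : ℕ) : ℝ) := by
        exact_mod_cast h1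
      refine h2.trans (le_of_eq ?_)
      push_cast; ring) (sq_nonneg _)
  rw [hdd, show (49 - 1 : ℕ) = 48 from rfl] at hmaj
  have hErr0 := err_alg Lg C M k1 (SS W M) Z (Z * R') (Real.log Z) (Real.log (Z * R'))
    (1 + Real.log M) T1 T2 hC.le hMr1 hk10 hSS0.le (by
      have h1 : (W.totient : ℝ) / W ≤ 1 := by
        rw [div_le_one hWr]
        exact_mod_cast Nat.totient_le W
      have h2 : SS W M ≤ 1 * Real.log (RR M) := by
        unfold SS
        exact mul_le_mul_of_nonneg_right h1 (Real.log_nonneg hRR1.le)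
      rw [hLR] at h2
      linarith only [h2, hLM0]) (by linarith only [hZ1]) (le_mul_of_one_le_right (by linarith only [hZ1]) hR'1) hlogZ0 (by
      rw [hlogZ, hLR]; linarith only [hLM0]) hlogY0 (by rw [hlogY]; linarith only [hLM0]) hLg2 (by
      rw [hT1, hB]) (by rw [hT2, hB])
  have hY2 : (Z * R') ^ 2 = (M : ℝ) ^ (9996 / 10000 : ℝ) := by
    rw [hZR, ← Real.rpow_natCast, ← Real.rpow_mul hMr0.le]
    norm_num
  rw [hY2] at hErr0
  have hQeq : ∑ a, U a ^ 2 / (szA (pw W M) a : ℝ) =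
      ∑ a, φ (totN M (prt (pw W M) a)) ^ 2 * Vm (pw W M) m (YY W M) a ^ 2 /
        (szA (pw W M) a : ℝ) := by
    refine Finset.sum_congr rfl fun a _ => ?_
    rw [hU]
    unfold UU
    rw [mul_pow]
  have hQ : ∑ a, U a ^ 2 / (szA (pw W M) a : ℝ) ≤
      SS W M ^ 50 * (OR m (fun t => φ t ^ 2) + e1) := by
    rw [hQeq]
    have h1 := (abs_le.mp hvsq).2
    have h2 : SS W M ^ 50 * (OR m (fun t => φ t ^ 2) + e1) =
      SS W M ^ 50 * OR m (fun t => φ t ^ 2) + e1 * SS W M ^ 50 := by ring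
    rw [h2]
    linarith only [h1]
  have hQ0 : 0 ≤ ∑ a, U a ^ 2 / (szA (pw W M) a : ℝ) :=
    Finset.sum_nonneg fun a _ => div_nonneg (sq_nonneg _) (Nat.cast_nonneg _)
  have hE : B ^ 2 * Er (pw W M) 48 49 ≤ k1 ^ 2 * e2 * SS W M ^ 50 := by
    have h1 : B ^ 2 * Er (pw W M) 48 49 ≤ B ^ 2 * (e2 * SS W M ^ 48) :=
      mul_le_mul_of_nonneg_left herr (sq_nonneg _)
    have h2 : B ^ 2 * (e2 * SS W M ^ 48) = k1 ^ 2 * e2 * SS W M ^ 50 := by
      rw [hB]; ring
    exact h1.trans (le_of_eq h2)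
  have hSWpos : 0 ≤ SW W R' := by
    refine le_trans ?_ hS'low
    have h3w : 3 / (w : ℝ) ≤ 1 := by
      rw [div_le_one (by linarith only [hw4r])]; linarith only [hw4r]
    have : 0 ≤ Real.log (RR M) := Real.log_nonneg hRR1.le
    have h5 : (0 : ℝ) ≤ (W.totient : ℝ) / W * Real.log (RR M) :=
      mul_nonneg (div_nonneg hphr.le hWr.le) this
    exact mul_nonneg (mul_nonneg (by linarith only [h3w]) (by norm_num)) h5
  have hk12 : k1 ^ 2 * e2 ≤ ε / 20 := by
    rw [he2]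
    exact Pool.Agent.Helper79.BG.kk_alg k1 ε hε
  have hfin := fin_alg _ Lg (JJ ω * M) W W.totient
    (((1 - ∑ i, 1 / (pw W M i : ℝ) ^ 2) * SW W R')⁻¹) _ _ _ (OR m (fun t => φ t ^ 2)) e1 e2 k1
    (SS W M ^ 50) _ (C * T2 ^ 2) ε _ hX0 hWr hphr
    (inv_nonneg.mpr (mul_nonneg (by linarith only [hsig1]) hSWpos)) hLg0 hstep hmaj hQ hQ0 hE
    (one_le_pow₀ hs4)
    (fun QE hQE => main_alg Lg (JJ ω * M) W W.totient (∑ i, 1 / (pw W M i : ℝ) ^ 2) (SW W R') QE
      (Real.log (RR M)) (Real.log M) w hX0 hWr hphr hQE hLM0 hLR hw4r hsig hLg1 hS'low)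
    hErr0 (by
      refine hs3.trans (le_of_eq ?_)
      ring) (by rw [he1]; linarith only [hk12, hε]) (mul_nonneg (sq_nonneg _) he20.le) hε
  exact hfin

end Pool.Agent.Helper27.BG
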